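import Pool.Agent.P.MP_8e94e3_co.ThinDens

set_option autoImplicit false

namespace Pool.Agent.Results.MP_8e94e3_co.ThinWindows

/-- The second player wins the clique-building game on `K_n` unless `n` is within relative
distance `C / r ^ (1/3)` of `(√2 / e) r 2 ^ (r/2)` for some `r`.  A position is the list of claimed
edges; the first player owns the edges at even places and the second player those at odd places;
`σ` is the second player's strategy. -/
theorem result : ∃ C : ℝ, ∀ n : ℕ,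
    (∀ r : ℕ, 1 ≤ r →
      C / (r : ℝ) ^ (1 / 3 : ℝ) < |(n : ℝ) / (√2 / Real.exp 1 * r * √2 ^ r) - 1|) →
      ∃ σ : List (Sym2 (Fin n)) → Sym2 (Fin n),
        (∀ l : List (Sym2 (Fin n)),
          l.Nodup → (∀ e ∈ l, ¬ e.IsDiag) →
          (∀ i (h : i < l.length), i % 2 = 1 → l[i]'h = σ (l.take i)) →
          l.length % 2 = 1 → l.length < n.choose 2 →
          ¬ (σ l).IsDiag ∧ σ l ∉ l) ∧
        (∀ l : List (Sym2 (Fin n)),
          l.Nodup → (∀ e ∈ l, ¬ e.IsDiag) →
          (∀ i (h : i < l.length), i % 2 = 1 → l[i]'h = σ (l.take i)) →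
          l.length = n.choose 2 →
          ∀ k : ℕ,
            (SimpleGraph.fromEdgeSet
                {e : Sym2 (Fin n) | ∃ i, ∃ h : i < l.length, i % 2 = 1 ∧ l[i]'h = e}).CliqueFree k →
            (SimpleGraph.fromEdgeSet
                {e : Sym2 (Fin n) | ∃ i, ∃ h : i < l.length, i % 2 = 0 ∧ l[i]'h = e}).CliqueFree k) :=
  ⟨6000, Pool.Agent.P.MP_8e94e3_co.thin_windows⟩

/-- Consequence: the second player wins for a set of `n` of natural density one. -/
theorem density_one :
    Filter.Tendsto (fun N : ℕ => (({n : ℕ | n < N ∧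
      ∃ σ : List (Sym2 (Fin n)) → Sym2 (Fin n),
        (∀ l : List (Sym2 (Fin n)),
          l.Nodup → (∀ e ∈ l, ¬ e.IsDiag) →
          (∀ i (h : i < l.length), i % 2 = 1 → l[i]'h = σ (l.take i)) →
          l.length % 2 = 1 → l.length < n.choose 2 →
          ¬ (σ l).IsDiag ∧ σ l ∉ l) ∧
        (∀ l : List (Sym2 (Fin n)),
          l.Nodup → (∀ e ∈ l, ¬ e.IsDiag) →
          (∀ i (h : i < l.length), i % 2 = 1 → l[i]'h = σ (l.take i)) →
          l.length = n.choose 2 →
          ∀ k : ℕ,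
            (SimpleGraph.fromEdgeSet
                {e : Sym2 (Fin n) | ∃ i, ∃ h : i < l.length, i % 2 = 1 ∧ l[i]'h = e}).CliqueFree k →
            (SimpleGraph.fromEdgeSet
                {e : Sym2 (Fin n) | ∃ i, ∃ h : i < l.length, i % 2 = 0 ∧ l[i]'h = e}).CliqueFree k)}
        : Set ℕ).ncard : ℝ) / N)
      Filter.atTop (nhds 1) := by
  obtain ⟨C, h⟩ := result
  exact Pool.Agent.P.MP_8e94e3_co.density_of_thin _ C h

/-- Consequence: at most `C N / (log N) ^ (1/3)` exceptions below `N`. -/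
theorem few_exceptions : ∃ C : ℝ, ∀ N : ℕ, 2 ≤ N → (({n : ℕ | n < N ∧ ¬
      ∃ σ : List (Sym2 (Fin n)) → Sym2 (Fin n),
        (∀ l : List (Sym2 (Fin n)),
          l.Nodup → (∀ e ∈ l, ¬ e.IsDiag) →
          (∀ i (h : i < l.length), i % 2 = 1 → l[i]'h = σ (l.take i)) →
          l.length % 2 = 1 → l.length < n.choose 2 →
          ¬ (σ l).IsDiag ∧ σ l ∉ l) ∧
        (∀ l : List (Sym2 (Fin n)),
          l.Nodup → (∀ e ∈ l, ¬ e.IsDiag) →
          (∀ i (h : i < l.length), i % 2 = 1 → l[i]'h = σ (l.take i)) →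
          l.length = n.choose 2 →
          ∀ k : ℕ,
            (SimpleGraph.fromEdgeSet
                {e : Sym2 (Fin n) | ∃ i, ∃ h : i < l.length, i % 2 = 1 ∧ l[i]'h = e}).CliqueFree k →
            (SimpleGraph.fromEdgeSet
                {e : Sym2 (Fin n) | ∃ i, ∃ h : i < l.length, i % 2 = 0 ∧ l[i]'h = e}).CliqueFree k)}
        : Set ℕ).ncard : ℝ) ≤ C * N / Real.log N ^ (1 / 3 : ℝ) := by
  obtain ⟨C, h⟩ := result
  exact Pool.Agent.P.MP_8e94e3_co.few_of_thin _ C h

end Pool.Agent.Results.MP_8e94e3_co.ThinWindows
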